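import Mathlib
import Pool.Agent.H518R3.RD.Defs

/-! ABG: the corner of an abelian projection is generated by one self-adjoint operator. -/

set_option autoImplicit false

open scoped ComplexOrder InnerProductSpace Topology
open Filter

noncomputable section

namespace Pool.Agent.H518R3.RD.T_ABG

open H759R2.Kad H710R2.DP H917R2.Tr Pool.Agent.H735G Pool.Agent.H467F
open Pool.Agent.H518R3.RD

variable {H : Type} [NormedAddCommGroup H] [InnerProductSpace ℂ H] [CompleteSpace H]

lemma norm_pr_le (e : H →L[ℂ] H) (he : IsPr e) : ‖e‖ ≤ 1 := by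
  obtain ⟨h1, h2⟩ := he
  have h3 : ‖star e * e‖ = ‖e‖ * ‖e‖ := CStarRing.norm_star_mul_self
  rw [h1, h2] at h3
  rcases eq_or_lt_of_le (norm_nonneg e) with h | h
  · linarith
  · have : ‖e‖ = 1 := by
      have h4 : ‖e‖ * (‖e‖ - 1) = 0 := by linarith
      rcases mul_eq_zero.mp h4 with h5 | h5
      · exact absurd h5 h.ne'
      · linarith
    exact this.le

lemma corner_comm (M : VonNeumannAlgebra H) (e : H →L[ℂ] H) (heM : e ∈ M) (he : IsPr e)
    (hab : IsAb M e) (x y : H →L[ℂ] H) (hx : x ∈ M) (hy : y ∈ M) :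
    (e * x * e) * (e * y * e) = (e * y * e) * (e * x * e) := by
  set a := e * x * e with ha
  set b := e * y * e with hb
  have hbM : b ∈ M := mul_mem (mul_mem heM hy) heM
  have key : ∀ ε : ℝ, 0 < ε → ‖a * b - b * a‖ ≤ ε := by
    intro ε hε
    obtain ⟨z, hz, hz2⟩ := hab x hx (ε / (2 * (‖b‖ + 1))) (by positivity)
    have h1 : (z * e) * b = b * (z * e) := by
      have h2 : z * e = e * z := hz.2 e heM
      have h3 : z * b = b * z := hz.2 b hbM
      have h4 : e * b = b := by rw [hb, ← mul_assoc, ← mul_assoc, he.2]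
      have h5 : b * e = b := by rw [hb, mul_assoc, he.2]
      calc (z * e) * b = z * (e * b) := mul_assoc _ _ _
        _ = b * z := by rw [h4, h3]
        _ = (b * e) * z := by rw [h5]
        _ = b * (z * e) := by rw [mul_assoc, ← h2]
    have h6 : a * b - b * a = (a - z * e) * b - b * (a - z * e) := by
      rw [sub_mul, mul_sub, h1]; abel
    rw [h6]
    calc ‖(a - z * e) * b - b * (a - z * e)‖ ≤ ‖(a - z * e) * b‖ + ‖b * (a - z * e)‖ :=
          norm_sub_le _ _
      _ ≤ ‖a - z * e‖ * ‖b‖ + ‖b‖ * ‖a - z * e‖ := add_le_add (norm_mul_le _ _) (norm_mul_le _ _)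
      _ ≤ ε / (2 * (‖b‖ + 1)) * ‖b‖ + ‖b‖ * (ε / (2 * (‖b‖ + 1))) := by gcongr
      _ = ε * (‖b‖ / (‖b‖ + 1)) := by field_simp; ring
      _ ≤ ε * 1 := by
          gcongr
          rw [div_le_one (by positivity)]
          linarith
      _ = ε := mul_one _
  have h0 : ‖a * b - b * a‖ ≤ 0 := le_of_forall_pos_le_add (by simpa using key)
  exact sub_eq_zero.mp (norm_le_zero_iff.mp h0)

theorem r_ABG (hCG : R_CG) (hCOM : R_COM) : R_ABG := by
  intro H _ _ _ _ M e heM he hab
  set S : Set (H →L[ℂ] H) := {x | x ∈ M ∧ e * x = x ∧ x * e = x ∧ star x = x ∧ ‖x‖ ≤ 1} with hS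
  have h0 : (0 : H →L[ℂ] H) ∈ S := ⟨zero_mem M, by simp, by simp, by simp, by simp⟩
  obtain ⟨y, hy, hgen⟩ := hCG H S ⟨0, h0⟩
  have hcomm : ∀ m n, y m * y n = y n * y m := by
    intro m n
    have := corner_comm M e heM he hab (y m) (y n) (hy m).1 (hy n).1
    rw [(hy m).2.1, (hy m).2.2.1, (hy n).2.1, (hy n).2.2.1] at this
    exact this
  obtain ⟨k, hk1, hk2, hk3, hk4⟩ := hCOM H y (fun n => ⟨(hy n).2.2.2.1, (hy n).2.2.2.2⟩) hcomm
  -- `k ∈ M`
  have hkM : k ∈ M := by
    have h1 : cc (Set.range y) ⊆ cc (M : Set (H →L[ℂ] H)) := by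
      apply Set.centralizer_subset
      apply Set.centralizer_subset
      rintro _ ⟨n, rfl⟩
      exact (hy n).1
    have h2 := h1 hk3
    have h3 : cc (M : Set (H →L[ℂ] H)) = (M : Set (H →L[ℂ] H)) := M.centralizer_centralizer
    rw [h3] at h2
    exact h2
  -- `k` commutes with `e`
  have hke : e * k = k * e := by
    have h1 : e ∈ Set.centralizer (Set.range y) := by
      rw [Set.mem_centralizer_iff]
      rintro _ ⟨n, rfl⟩
      rw [(hy n).2.1, (hy n).2.2.1]
    exact (Set.mem_centralizer_iff.mp hk3) e h1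
  have hee := he.2
  refine ⟨e * k, mul_mem heM hkM, ?_, ?_, ?_, ?_⟩
  · rw [star_mul, hk1, he.1, hke]
  · calc ‖e * k‖ ≤ ‖e‖ * ‖k‖ := norm_mul_le _ _
      _ ≤ 1 * 1 := mul_le_mul (norm_pr_le e he) hk2 (norm_nonneg _) zero_le_one
      _ = 1 := one_mul _
  · rw [← mul_assoc, hee]
  intro x hx
  unfold cc
  rw [Set.mem_centralizer_iff]
  intro s hs
  rw [Set.mem_centralizer_iff] at hs
  have hs1 : (e * k) * s = s * (e * k) := hs _ (by simp)
  have hs2 : e * s = s * e := hs _ (by simp)
  -- `t = e s e` commutes with `k`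
  have ht : (e * s * e) * k = k * (e * s * e) := by
    have a1 : (e * s * e) * k = (e * k) * s := by
      calc (e * s * e) * k = e * (s * (e * k)) := by simp only [mul_assoc]
        _ = e * ((e * k) * s) := by rw [hs1]
        _ = ((e * e) * k) * s := by simp only [mul_assoc]
        _ = (e * k) * s := by rw [hee]
    have a2 : k * (e * s * e) = (e * k) * s := by
      calc k * (e * s * e) = (k * e) * (s * e) := by simp only [mul_assoc]
        _ = (e * k) * (e * s) := by rw [← hke, hs2]
        _ = (e * (k * e)) * s := by simp only [mul_assoc]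
        _ = (e * (e * k)) * s := by rw [hke]
        _ = (e * k) * s := by rw [← mul_assoc, hee]
    rw [a1, a2]
  have hty : ∀ n, (e * s * e) * y n = y n * (e * s * e) := by
    intro n
    have h1 : (e * s * e) ∈ Set.centralizer ({k} : Set (H →L[ℂ] H)) := by
      rw [Set.mem_centralizer_iff]
      intro m hm
      rw [Set.mem_singleton_iff] at hm
      rw [hm, ht]
    exact (Set.mem_centralizer_iff.mp (hk4 n)) _ h1
  have hsy : s ∈ Set.centralizer (Set.range y) := by
    rw [Set.mem_centralizer_iff]
    rintro _ ⟨n, rfl⟩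
    have b1 : s * y n = (e * s * e) * y n := by
      calc s * y n = s * (e * y n) := by rw [(hy n).2.1]
        _ = (s * (e * e)) * y n := by rw [hee, mul_assoc]
        _ = ((s * e) * e) * y n := by simp only [mul_assoc]
        _ = (e * s * e) * y n := by rw [← hs2]
    have b2 : y n * s = y n * (e * s * e) := by
      calc y n * s = (y n * e) * s := by rw [(hy n).2.2.1]
        _ = (y n * (e * e)) * s := by rw [hee]
        _ = y n * (e * (e * s)) := by simp only [mul_assoc]
        _ = y n * (e * (s * e)) := by rw [hs2]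
        _ = y n * (e * s * e) := by simp only [mul_assoc]
    rw [b1, b2, hty n]
  have hsS : ∀ w ∈ S, s * w = w * s := by
    intro w hw
    have := hgen w hw
    unfold cc at this
    exact (Set.mem_centralizer_iff.mp this) s hsy
  -- self-adjoint elements of the corner
  have hsa : ∀ w ∈ M, e * w = w → w * e = w → star w = w → s * w = w * s := by
    intro w hw h1 h2 h3
    set c : ℝ := (1 + ‖w‖)⁻¹ with hc
    have hc0 : 0 < c := by positivity
    have hw' : (c : ℂ) • w ∈ S := by
      refine ⟨?_, ?_, ?_, ?_, ?_⟩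
      · exact M.toStarSubalgebra.smul_mem hw (c : ℂ)
      · rw [mul_smul_comm, h1]
      · rw [smul_mul_assoc, h2]
      · rw [star_smul, h3, Complex.star_def, Complex.conj_ofReal]
      · rw [norm_smul, Complex.norm_real, Real.norm_of_nonneg hc0.le, hc,
          inv_mul_le_iff₀ (by positivity)]
        linarith [norm_nonneg w]
    have h4 := hsS _ hw'
    rw [mul_smul_comm, smul_mul_assoc] at h4
    have h5 : (c : ℂ) ≠ 0 := by exact_mod_cast hc0.ne'
    exact smul_right_injective _ h5 h4
  set w := e * x * e with hw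
  have hwM : w ∈ M := mul_mem (mul_mem heM hx) heM
  have hwM' : star w ∈ M := star_mem hwM
  have hew : e * w = w := by rw [hw, ← mul_assoc, ← mul_assoc, hee]
  have hwe : w * e = w := by rw [hw, mul_assoc, hee]
  have hew' : e * star w = star w := by
    have := congrArg star hwe
    rwa [star_mul, he.1] at this
  have hwe' : star w * e = star w := by
    have := congrArg star hew
    rwa [star_mul, he.1] at this
  have c1 := hsa (w + star w) (add_mem hwM hwM') (by rw [mul_add, hew, hew'])
    (by rw [add_mul, hwe, hwe']) (by rw [star_add, star_star, add_comm])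
  have c2 := hsa (Complex.I • (w - star w))
    (M.toStarSubalgebra.smul_mem (sub_mem hwM hwM') Complex.I)
    (by rw [mul_smul_comm, mul_sub, hew, hew']) (by rw [smul_mul_assoc, sub_mul, hwe, hwe'])
    (by
      rw [star_smul, star_sub, star_star, Complex.star_def, Complex.conj_I, neg_smul, ← smul_neg,
        neg_sub])
  rw [mul_smul_comm, smul_mul_assoc] at c2
  have c3 : s * (w - star w) = (w - star w) * s := smul_right_injective _ Complex.I_ne_zero c2
  have c4 : (2 : ℂ) • (s * w) = (2 : ℂ) • (w * s) := by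
    rw [two_smul, two_smul]
    have : s * w + s * w = s * (w + star w) + s * (w - star w) := by
      rw [mul_add, mul_sub]; abel
    rw [this, c1, c3, add_mul, sub_mul]; abel
  exact smul_right_injective _ two_ne_zero c4

end Pool.Agent.H518R3.RD.T_ABG
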